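import Pool.Agent.Q138.PD.Cls

set_option autoImplicit false

/-!
# Torsion-free groups without `ℤ²` inside products, and the flat closing problem

Let `H` be a finitely generated torsion-free group without subgroups `ℤ²` (for instance a torsion-free
counterexample to the question whether such groups, acting geometrically on CAT(0) spaces, are
hyperbolic). If `H` is embedded in a restricted product of groups then it embeds in one of the factors;
if it is embedded in an unrestricted product then it embeds in an ultraproduct; if it is embedded in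
a power of `GL_n(ℂ)` (of `PGL_n(ℂ)`) then it embeds in `GL_n(ℂ)` (in `PGL_n(ℂ)`).

So the class of groups `G` such that the question has a positive answer for all torsion-free groups in
`G` is closed under restricted direct products, directed unions, subdirect products of finitely
many groups and extensions with torsion kernel, and, by the known structure of CAT(0) groups with abelian
normal subgroups, under extensions with solvable kernel.
-/

namespace Pool.Agent.Results.MP_140312_al.GroupsInProducts

open Filter Pool.Agent.Q138.PD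
open scoped MatrixGroups

/-- The inequality of Bruhat and Tits: a complete metric space is CAT(0) if and only if any two
points `p`, `q` have a midpoint `m` such that
`d(x, m)² ≤ (d(x, p)² + d(x, q)²) / 2 - d(p, q)² / 4` for all `x`. -/
def BruhatTits (X : Type) [MetricSpace X] : Prop := ∀ p q : X, ∃ m : X, ∀ x : X,
  dist x m ^ 2 ≤ (dist x p ^ 2 + dist x q ^ 2) / 2 - dist p q ^ 2 / 4

/-- `H` acts geometrically (by isometries, properly discontinuously, cocompactly) on a nonempty
proper CAT(0) space. -/
def CatZero (H : Type) [Group H] : Prop :=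
  ∃ (X : Type) (_ : MetricSpace X) (_ : MulAction H X), Nonempty X ∧ ProperSpace X ∧ BruhatTits X ∧
    IsIsometricSMul H X ∧ ProperlyDiscontinuousSMul H X ∧
    ∃ K : Set X, IsCompact K ∧ ∀ x : X, ∃ g : H, g • x ∈ K

/-- `H` has no subgroup isomorphic to `ℤ²`. -/
def NoFlat (H : Type) [Group H] : Prop :=
  ¬ ∃ f : Multiplicative (ℤ × ℤ) →* H, Function.Injective f

/-- `H` has no nontrivial elements of finite order. -/
def TorsionFree (H : Type) [Group H] : Prop := ∀ g : H, IsOfFinOrder g → g = 1

/-- `H` is hyperbolic: the word metric of some finite generating set satisfies the four-point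
condition. -/
def Hyperbolic (H : Type) [Group H] : Prop :=
  ∃ (S : Finset H) (dist : H → H → ℤ) (δ : ℤ),
    Subgroup.closure (S : Set H) = ⊤ ∧
    (∀ x y : H, dist x y = ((sInf {m : ℕ | ∃ l : List H, l.length = m ∧
        (∀ s ∈ l, s ∈ S ∨ s⁻¹ ∈ S) ∧ l.prod = x⁻¹ * y} : ℕ) : ℤ)) ∧
    ∀ w x y z : H,
      min (dist w x + dist w y - dist x y) (dist w y + dist w z - dist y z)
        ≤ dist w x + dist w z - dist x z + δ

/-- Every finitely generated torsion-free group without `ℤ²` which acts geometrically on a proper CAT(0)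
space and embeds in `G` is hyperbolic. -/
def Closing (G : Type) [Group G] : Prop :=
  ∀ (H : Type) [Group H], Group.FG H → TorsionFree H → NoFlat H → CatZero H →
    ∀ f : H →* G, Function.Injective f → Hyperbolic H

/-- A known fact (Bridson and Haefliger): a torsion-free group which acts geometrically on a proper
CAT(0) space and has a nontrivial abelian normal subgroup has a subgroup `ℤ²` or is hyperbolic (it is
infinite cyclic). -/
def AbelianNormalFact : Prop :=
  ∀ (H : Type) [Group H], Group.FG H → TorsionFree H → CatZero H → ∀ A : Subgroup H, A.Normal →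
    A ≠ ⊥ → (∀ a ∈ A, ∀ b ∈ A, a * b = b * a) → ¬ NoFlat H ∨ Hyperbolic H

/-- `H` embedded in a product: in a restricted product some projection is injective; in general there
is an ultrafilter such that every nontrivial element is nontrivial in almost all coordinates. -/
def InProducts (H : Type) [Group H] : Prop :=
  ∀ (I : Type) (G : I → Type) [∀ i, Group (G i)] (f : H →* ∀ i, G i), Function.Injective f →
    ((∀ x, {i | f x i ≠ 1}.Finite) → ∃ i, Function.Injective fun x => f x i) ∧
    (∃ U : Ultrafilter I, ∀ x, x ≠ 1 → ∀ᶠ i in (U : Filter I), f x i ≠ 1)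

/-- If `H` embeds in a power of the group `L` then it embeds in `L`. -/
def PowerToFactor (H L : Type) [Group H] [Group L] : Prop :=
  ∀ (I : Type) (f : H →* (I → L)), Function.Injective f →
    ∃ g : H →* L, Function.Injective g

theorem ni {H : Type} [Group H] (htf : TorsionFree H) (hnf : NoFlat H) : NI H :=
  fun A B _ _ hAB => normal_inter htf hnf A B hAB

/-- The type of groups. -/
def Typ (H : Type) (_ : Group H) : Prop :=
  Nontrivial H ∧ Group.FG H ∧ TorsionFree H ∧ NoFlat H ∧ CatZero H

theorem tame : Tame Typ := fun _ _ h => ⟨h.1, h.2.1, ni h.2.2.1 h.2.2.2.1⟩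

theorem hyperbolic_of_subsingleton {H : Type} [Group H] [Subsingleton H] : Hyperbolic H := by
  refine ⟨∅, fun x y => ((sInf {m : ℕ | ∃ l : List H, l.length = m ∧
        (∀ s ∈ l, s ∈ (∅ : Finset H) ∨ s⁻¹ ∈ (∅ : Finset H)) ∧ l.prod = x⁻¹ * y} : ℕ) : ℤ), 0,
        ?_, fun _ _ => rfl, ?_⟩
  · exact Subsingleton.elim _ _
  · intro w x y z
    rw [Subsingleton.elim x w, Subsingleton.elim y w, Subsingleton.elim z w]
    simp

theorem closing_iff (G : Type) [Group G] : Closing G ↔ AllHave Typ (fun H _ => Hyperbolic H) G := by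
  constructor
  · intro h H _ hH f hf
    exact h H hH.2.1 hH.2.2.1 hH.2.2.2.1 hH.2.2.2.2 f hf
  · intro h H _ h1 h2 h3 h4 f hf
    rcases subsingleton_or_nontrivial H with hs | hn
    · exact hyperbolic_of_subsingleton
    · exact h H ⟨hn, h1, h2, h3, h4⟩ f hf

theorem toFactor {H : Type} [Group H] (hfg : Group.FG H) (hNI : NI H) (n : ℕ) :
    PowerToFactor H (GL (Fin n) ℂ) ∧ PowerToFactor H PGL(n, ℂ) := by
  have := countable_of_fg hfg
  constructor
  · intro I f hf
    exact NI.linear hNI n (fun i => (Pi.evalMonoidHom (fun _ : I => GL (Fin n) ℂ) i).comp f)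
      (jointly f hf)
  · intro I f hf
    exact NI.pgl hNI n (fun i => (Pi.evalMonoidHom (fun _ : I => PGL(n, ℂ)) i).comp f)
      (jointly f hf)

/-- **Torsion-free groups without `ℤ²` inside products, and closure properties of the class of groups
which satisfy the flat closing conjecture.** -/
theorem result :
    (∀ (H : Type) [Group H], Nontrivial H → Group.FG H → TorsionFree H → NoFlat H → InProducts H ∧
      ∀ n : ℕ, PowerToFactor H (GL (Fin n) ℂ) ∧ PowerToFactor H PGL(n, ℂ)) ∧
    (∀ (I : Type) (G : I → Type) [∀ i, Group (G i)], (∀ i, Closing (G i)) →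
      Closing (FinSupp G)) ∧
    (∀ (n : ℕ) (I : Type), (Closing (GL (Fin n) ℂ) → Closing (I → GL (Fin n) ℂ)) ∧
      (Closing PGL(n, ℂ) → Closing (I → PGL(n, ℂ)))) ∧
    (∀ (G : Type) [Group G] (ι : Type) [Finite ι] (N : ι → Subgroup G) [∀ i, (N i).Normal],
      (∀ g ∈ ⨅ i, N i, IsOfFinOrder g) → (∀ i, Closing (G ⧸ N i)) → Closing G) ∧
    (∀ (G : Type) [Group G] (ι : Type) (S : ι → Subgroup G), Directed (· ≤ ·) S →
      (∀ g, ∃ i, g ∈ S i) → (∀ i, Closing (S i)) → Closing G) ∧
    (AbelianNormalFact → ∀ (G : Type) [Group G] (ι : Type) [Finite ι] (N : ι → Subgroup G)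
      [∀ i, (N i).Normal], Group.IsSolvable (⨅ i, N i : Subgroup G) →
        (∀ i, Closing (G ⧸ N i)) → Closing G) := by
  refine ⟨fun H _ hn hfg htf hnf => ⟨fun I G _ f hf => ⟨(ni htf hnf).factor hfg f hf, ?_⟩,
    toFactor hfg (ni htf hnf)⟩, ?_, ?_, ?_, ?_, ?_⟩
  · exact NI.ultra (ni htf hnf) (fun i => (Pi.evalMonoidHom G i).comp f) (jointly f hf)
  · intro I G _ hG
    exact (closing_iff _).mpr (allHave_prod tame fun i => (closing_iff _).mp (hG i))
  · intro n I
    refine ⟨fun hn H _ h1 h2 h3 h4 f hf => ?_, fun hn H _ h1 h2 h3 h4 f hf => ?_⟩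
    · obtain ⟨g, hg⟩ := (toFactor h1 (ni h2 h3) n).1 I f hf
      exact hn H h1 h2 h3 h4 g hg
    · obtain ⟨g, hg⟩ := (toFactor h1 (ni h2 h3) n).2 I f hf
      exact hn H h1 h2 h3 h4 g hg
  · intro G _ ι _ N _ hN hW
    refine (closing_iff _).mpr (allHave_ext tame (N := N) ?_ fun i => (closing_iff _).mp (hW i))
    intro H _ h f hf
    left
    rw [eq_bot_iff]
    intro x hx
    rw [Subgroup.mem_bot]
    exact h.2.2.1 x ((hf.isOfFinOrder_iff (f := f)).mp (hN _ hx))
  · intro G _ ι S hdir hS hW
    exact (closing_iff _).mpr (allHave_union tame hdir hS fun i => (closing_iff _).mp (hW i))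
  · intro hAN G _ ι _ N _ hsol hW
    have hnor : (⨅ i, N i : Subgroup G).Normal := Subgroup.normal_iInf_normal fun i => inferInstance
    refine (closing_iff _).mpr (allHave_ext tame (N := N) ?_ fun i => (closing_iff _).mp (hW i))
    intro H _ h f hf
    by_cases hne : (⨅ i, N i : Subgroup G).comap f = ⊥
    · exact Or.inl hne
    right
    have hK : Group.IsSolvable ((⨅ i, N i : Subgroup G).comap f) := by
      have hh : Function.Injective ((f.comp ((⨅ i, N i : Subgroup G).comap f).subtype).codRestrict
          (⨅ i, N i : Subgroup G) (fun x => x.2)) := by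
        intro x y hxy
        exact Subtype.ext (hf (congrArg Subtype.val hxy))
      exact Group.isSolvable_of_isSolvable_injective hh
    obtain ⟨A, hA, hA1, hA2⟩ := solvable_normal _ hK hne
    rcases hAN H h.2.1 h.2.2.1 h.2.2.2.2 A hA hA1 hA2 with h5 | h5
    · exact absurd h.2.2.2.1 h5
    · exact h5

end Pool.Agent.Results.MP_140312_al.GroupsInProducts
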