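import Pool.Agent.Q117.LP.Per

/-!
# Flat squares in CAT(0) groups without `ℤ²` are not locally periodic

Let `G` act geometrically on a proper CAT(0) space `X` and suppose that `G` does not contain `ℤ²`.
Choose a lattice `ℤ b₁ + ℤ b₂` in the Euclidean plane, a point `x₀` of `X`, a number `r` and `q ≥ 1`.
Then there is `N` with the following property.  Let `f` be a flat parallelogram with sides `2 N b₁`,
`2 N b₂` in `X`, and label its lattice points `z` by elements `φ z` of `G` such that `φ z • x₀` is at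
distance at most `r` from `f z`.  Then the labelling has no local period of size at most `q` in some box
of radius `11 q` of the parallelogram: there is a lattice point `z` such that for all nonzero `v` with
coordinates at most `q` in absolute value and all `g` in `G` we have `φ (w + v) ≠ g φ w` for some `w` such
that `w` and `w + v` are in the box of radius `11 q` around `z`.

So if `X` contains one large flat parallelogram with a labelling which is locally periodic up to `G`
(the period may vary from place to place) then `G` contains `ℤ²`.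

Idea of the proof.  If there is no such `N` then a limit gives a labelled flat plane which has local
periods everywhere.  A configuration on `ℤ²` with local periods of bounded size in all boxes has a
global period (starting files), so an element of `G` acts on the flat as a translation up to a bounded
distance, and the closing theorem of the starting files gives `ℤ²`.
-/

set_option autoImplicit false

namespace Pool.Agent.Results.MP_140312_al.LocalPeriods

open Filter Topology Set Metric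

/-- The Euclidean plane. -/
abbrev Plane : Type := EuclideanSpace ℝ (Fin 2)

/-- The inequality of Bruhat and Tits: a complete metric space is CAT(0) if and only if any two
points `p`, `q` have a midpoint `m` such that
`d(x, m)² ≤ (d(x, p)² + d(x, q)²) / 2 - d(p, q)² / 4` for all `x`. -/
def BruhatTits (X : Type*) [MetricSpace X] : Prop := ∀ p q : X, ∃ m : X, ∀ x : X,
  dist x m ^ 2 ≤ (dist x p ^ 2 + dist x q ^ 2) / 2 - dist p q ^ 2 / 4

/-- `f` maps the parallelogram of all `s b₁ + t b₂`, `|s|, |t| ≤ N`, isometrically to `X`. -/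
def IsFlatPiece {X : Type*} [MetricSpace X] (b₁ b₂ : Plane) (N : ℕ) (f : Plane → X) : Prop :=
  ∀ s t s' t' : ℝ, |s| ≤ N → |t| ≤ N → |s'| ≤ N → |t'| ≤ N →
    dist (f (s • b₁ + t • b₂)) (f (s' • b₁ + t' • b₂)) =
      dist (s • b₁ + t • b₂) (s' • b₁ + t' • b₂)

/-- `z` is in the box of radius `R` around `0`. -/
def Box (R : ℤ) (z : ℤ × ℤ) : Prop := |z.1| ≤ R ∧ |z.2| ≤ R

/-- The labelling `φ` has, in the box of radius `11 q` around `z`, a period `v ≠ 0` with coordinates
at most `q` in absolute value, up to an element `g` of `G`. -/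
def LocallyPeriodic {G : Type*} [Group G] (φ : ℤ × ℤ → G) (q : ℕ) (z : ℤ × ℤ) : Prop :=
  ∃ v : ℤ × ℤ, v ≠ 0 ∧ Box q v ∧ ∃ g : G, ∀ w : ℤ × ℤ, Box (11 * q) (w - z) →
    Box (11 * q) (w + v - z) → φ (w + v) = g * φ w

theorem box_iff (R : ℤ) (z w : ℤ × ℤ) : Box R (w - z) ↔ Pool.Agent.TH60.FP.Bx z R w := by
  unfold Box Pool.Agent.TH60.FP.Bx
  simp only [Prod.fst_sub, Prod.snd_sub, abs_le]
  tauto

theorem box_finite (R : ℤ) : {v : ℤ × ℤ | Box R v}.Finite := by
  refine ((Set.finite_Icc (-R) R).prod (Set.finite_Icc (-R) R)).subset ?_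
  rintro ⟨x, y⟩ h
  simp only [Box, mem_ofPred_eq, abs_le] at h
  exact ⟨⟨h.1.1, h.1.2⟩, ⟨h.2.1, h.2.2⟩⟩

/-- Let `G` act geometrically (by isometries, properly discontinuously, cocompactly) on a proper
CAT(0) space `X` and suppose that `G` has no subgroup isomorphic to `ℤ²`.  Let `b₁`, `b₂` be linearly
independent vectors of the Euclidean plane, `x₀` a point of `X`, `r` a real number and `q ≥ 1`.  Then
there is `N` such that for every flat parallelogram `f` (the images of `s b₁ + t b₂`, `|s|, |t| ≤ N`)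
and every labelling `φ` of its lattice points `z` by elements of `G` with `φ z • x₀` at distance at
most `r` from `f z` there is a lattice point `z` such that the box of radius `11 q` around `z` lies in
the parallelogram and `φ` has no local period of size at most `q` in this box. -/
theorem result {X : Type*} [MetricSpace X] [ProperSpace X] (hX : BruhatTits X)
    {G : Type*} [Group G] [MulAction G X] [IsIsometricSMul G X] [ProperlyDiscontinuousSMul G X]
    (hcc : ∃ K : Set X, IsCompact K ∧ ∀ x : X, ∃ g : G, g • x ∈ K)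
    (hZ : ¬ ∃ ψ : Multiplicative (ℤ × ℤ) →* G, Function.Injective ψ)
    (b₁ b₂ : Plane) (hb : LinearIndependent ℝ ![b₁, b₂]) (x₀ : X) (r : ℝ) (q : ℕ) (hq : 0 < q) :
    ∃ N : ℕ, ∀ (f : Plane → X) (φ : ℤ × ℤ → G), IsFlatPiece b₁ b₂ N f →
      (∀ z : ℤ × ℤ, Box N z → dist (φ z • x₀) (f (z.1 • b₁ + z.2 • b₂)) ≤ r) →
      ∃ z : ℤ × ℤ, Box (N - 11 * q) z ∧ ¬ LocallyPeriodic φ q z := by
  have hG : Pool.Agent.Y34.HB.Geo X G := ⟨inferInstance, inferInstance, inferInstance, hcc, hX⟩
  by_contra hcon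
  push Not at hcon
  choose f φ hf hφ hloc using hcon
  apply hZ
  let 𝒰 : Ultrafilter ℕ := hyperfilter ℕ
  have hU : (𝒰 : Filter ℕ) ≤ atTop := Nat.hyperfilter_le_atTop
  -- normalisation
  set f' : ℕ → Plane → X := fun N p => (φ N 0)⁻¹ • f N p with hf'
  set φ' : ℕ → ℤ × ℤ → G := fun N z => (φ N 0)⁻¹ * φ N z with hφ'
  set L : ℤ × ℤ → Plane := fun z => z.1 • b₁ + z.2 • b₂ with hL
  have hbase : ∀ N, dist (f' N 0) x₀ ≤ r := by
    intro N
    have h1 := hφ N 0 ⟨by simp, by simp⟩
    have h2 : dist (f' N 0) x₀ = dist (φ N 0 • x₀) (f N 0) := by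
      rw [hf', dist_comm, ← dist_smul (φ N 0), smul_inv_smul]
    rw [h2]
    simpa using h1
  have hpar : ∀ p : Plane, ∃ s t : ℝ, p = s • b₁ + t • b₂ := by
    intro p
    have hc : Fintype.card (Fin 2) = Module.finrank ℝ Plane := by simp [Plane]
    set bas := basisOfLinearIndependentOfCardEqFinrank hb hc with hbas
    refine ⟨bas.repr p 0, bas.repr p 1, ?_⟩
    have h2 := bas.sum_repr p
    rw [Fin.sum_univ_two] at h2
    have h3 : ∀ i, bas i = ![b₁, b₂] i := fun i => by
      rw [hbas, coe_basisOfLinearIndependentOfCardEqFinrank]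
    rw [h3, h3] at h2
    exact h2.symm
  have hdist : ∀ p p' : Plane, ∀ᶠ N in (𝒰 : Filter ℕ), dist (f' N p) (f' N p') = dist p p' := by
    intro p p'
    obtain ⟨s, t, rfl⟩ := hpar p
    obtain ⟨s', t', rfl⟩ := hpar p'
    have e : ∀ a : ℝ, ∀ᶠ N : ℕ in (𝒰 : Filter ℕ), |a| ≤ N := fun a =>
      hU (tendsto_natCast_atTop_atTop.eventually_ge_atTop |a|)
    filter_upwards [e s, e t, e s', e t'] with N h1 h2 h3 h4
    rw [hf', dist_smul]
    exact hf N s t s' t' h1 h2 h3 h4
  have hlim : ∀ p : Plane, ∃ x : X, Tendsto (fun N => f' N p) (𝒰 : Filter ℕ) (𝓝 x) := by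
    intro p
    have hc : IsCompact (closedBall x₀ (dist p 0 + r)) := isCompact_closedBall _ _
    obtain ⟨x, -, hx⟩ := hc.ultrafilter_le_nhds (𝒰.map (fun N => f' N p)) (by
      rw [le_principal_iff]
      show (fun N => f' N p) ⁻¹' (closedBall x₀ (dist p 0 + r)) ∈ 𝒰
      filter_upwards [hdist p 0] with N h1
      rw [mem_preimage, mem_closedBall, ← h1]
      exact (dist_triangle _ (f' N 0) _).trans (add_le_add le_rfl (hbase N)))
    exact ⟨x, hx⟩
  choose F hF using hlim
  have hFi : Isometry F := by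
    refine Isometry.of_dist_eq fun p p' => ?_
    have h1 : Tendsto (fun N => dist (f' N p) (f' N p')) (𝒰 : Filter ℕ) (𝓝 (dist (F p) (F p'))) :=
      (hF p).dist (hF p')
    have h2 : Tendsto (fun N => dist (f' N p) (f' N p')) (𝒰 : Filter ℕ) (𝓝 (dist p p')) :=
      (tendsto_congr' (hdist p p')).2 tendsto_const_nhds
    exact tendsto_nhds_unique h1 h2
  have hbox : ∀ (c : ℤ) (z : ℤ × ℤ), ∀ᶠ N : ℕ in (𝒰 : Filter ℕ), Box (N - c) z := by
    intro c z
    have e : ∀ a : ℤ, ∀ᶠ N : ℕ in (𝒰 : Filter ℕ), |a| ≤ N - c := fun a => by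
      have := hU (eventually_ge_atTop (|a| + c).toNat)
      filter_upwards [this] with N hN
      have := Int.toNat_le.1 (ge_iff_le.1 hN)
      omega
    filter_upwards [e z.1, e z.2] with N h1 h2
    exact ⟨h1, h2⟩
  have hlab : ∀ z : ℤ × ℤ, ∀ᶠ N in (𝒰 : Filter ℕ), dist (φ' N z • x₀) (f' N (L z)) ≤ r := by
    intro z
    filter_upwards [hbox 0 z] with N h1
    rw [hφ', hf']
    simp only
    rw [mul_smul, dist_smul]
    exact hφ N z (by simpa using h1)
  have hΦ : ∀ z : ℤ × ℤ, ∃ γ : G, ∀ᶠ N in (𝒰 : Filter ℕ), φ' N z = γ := by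
    intro z
    have hfin := Pool.Agent.Q117.WS.fin_ball hG x₀ (r + (dist (L z) 0 + r))
    have h1 : (⋃ γ ∈ {γ : G | dist (γ • x₀) x₀ ≤ r + (dist (L z) 0 + r)},
        {N : ℕ | φ' N z = γ}) ∈ 𝒰 := by
      filter_upwards [hlab z, hdist (L z) 0] with N h1 h2
      simp only [mem_iUnion, mem_ofPred_eq, exists_prop]
      refine ⟨_, ?_, rfl⟩
      have a1 := dist_triangle (φ' N z • x₀) (f' N (L z)) x₀
      have a2 := dist_triangle (f' N (L z)) (f' N 0) x₀
      have a3 := hbase N
      linarith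
    obtain ⟨γ, -, h2⟩ := (Ultrafilter.finite_biUnion_mem_iff hfin).1 h1
    exact ⟨γ, h2⟩
  choose Φ hΦ using hΦ
  have hΦl : ∀ z : ℤ × ℤ, dist (Φ z • x₀) (F (z.1 • b₁ + z.2 • b₂)) ≤ r := by
    intro z
    have h1 : Tendsto (fun N => dist (Φ z • x₀) (f' N (L z))) (𝒰 : Filter ℕ)
        (𝓝 (dist (Φ z • x₀) (F (L z)))) := tendsto_const_nhds.dist (hF (L z))
    refine le_of_tendsto h1 ?_
    filter_upwards [hlab z, hΦ z] with N h2 h3
    rwa [h3] at h2
  refine Pool.Agent.Q117.LP.of_local hX hcc F hFi b₁ b₂ hb x₀ r Φ hΦl q (by exact_mod_cast hq) ?_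
  intro z
  have h1 : (⋃ v ∈ {v : ℤ × ℤ | Box q v}, {N : ℕ | v ≠ 0 ∧ ∃ g : G, ∀ w : ℤ × ℤ,
      Box (11 * q) (w - z) → Box (11 * q) (w + v - z) → φ N (w + v) = g * φ N w}) ∈ 𝒰 := by
    filter_upwards [hbox (11 * q) z] with N h1
    obtain ⟨v, h2, h3, h4⟩ := hloc N z h1
    simp only [mem_iUnion, mem_ofPred_eq, exists_prop]
    exact ⟨v, h3, h2, h4⟩
  obtain ⟨v, hv, h2⟩ := (Ultrafilter.finite_biUnion_mem_iff (box_finite q)).1 h1
  have hv0 : v ≠ 0 := by
    obtain ⟨N, hN⟩ := Filter.nonempty_of_mem (f := (𝒰 : Filter ℕ)) h2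
    exact hN.1
  refine ⟨v, hv0, (box_iff _ _ _).1 (by simpa using hv), Φ (z + v) * (Φ z)⁻¹, ?_⟩
  intro w hw hwv
  rw [← box_iff] at hw hwv
  have hz1 : Box (11 * q) (z - z) := by
    simp only [sub_self, Box, Prod.fst_zero, Prod.snd_zero, abs_zero]
    omega
  have hz2 : Box (11 * q) (z + v - z) := by
    have h3 : Box q v := hv
    rw [add_sub_cancel_left]
    unfold Box at h3 ⊢
    omega
  have h3 : ∀ᶠ N in (𝒰 : Filter ℕ), v ≠ 0 ∧ ∃ g : G, ∀ w : ℤ × ℤ,
      Box (11 * q) (w - z) → Box (11 * q) (w + v - z) → φ N (w + v) = g * φ N w := h2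
  obtain ⟨N, ⟨-, g, hg⟩, h4, h5, h6, h7⟩ :=
    (h3.and ((hΦ z).and ((hΦ (z + v)).and ((hΦ w).and (hΦ (w + v)))))).exists
  rw [← h4, ← h5, ← h6, ← h7, hφ']
  simp only
  rw [hg z hz1 hz2, hg w hw hwv]
  group

end Pool.Agent.Results.MP_140312_al.LocalPeriods
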