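import Pool.Agent.Q117.WS.Rect

/-!
# An exponential bound for the width of the axes of an isometry, or `ℤ²`

Let `G` act geometrically on a proper CAT(0) space `X`.  There is a constant `A > 0` such that each
of the following gives a subgroup `ℤ²` of `G`:

* an element `g` of translation length `τ` with two axes at distance more than `A exp (A τ)`;
* a flat rectangle of size `2 τ × W`, `W > A exp (A τ)`, whose first half is translated onto the
  second half by an element of `G`;
* an element `g` of translation length `τ` with an axis such that more than `A exp (A τ)` elements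
  are needed to represent the centraliser of `g` modulo the powers of `g`.

Idea of the proof.  If the centraliser `C` of `g` moves axes of `g` arbitrarily far then `g` has
invariant strips of unbounded width, and limits of their translates are flats with a period.
Otherwise `C` almost fixes an axis `c`.  On a strip between `c` and another axis look at the
conjugates `b g b⁻¹`, where `b` moves a point of the strip into a fixed ball; if the strip is wide
two of them agree, as orbits grow at most exponentially, and this gives an element of `C` which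
moves `c` along the strip.
-/

set_option autoImplicit false

namespace Pool.Agent.Results.MP_140312_al.WideStrips

open Set Metric

/-- The inequality of Bruhat and Tits: a complete metric space is CAT(0) if and only if any two
points `p`, `q` have a midpoint `m` such that
`d(x, m)² ≤ (d(x, p)² + d(x, q)²) / 2 - d(p, q)² / 4` for all `x`. -/
def BruhatTits (X : Type*) [MetricSpace X] : Prop := ∀ p q : X, ∃ m : X, ∀ x : X,
  dist x m ^ 2 ≤ (dist x p ^ 2 + dist x q ^ 2) / 2 - dist p q ^ 2 / 4

/-- The geodesic line `c` is an axis of `g` with translation length `τ`. -/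
def IsAxis {X : Type*} [MetricSpace X] {G : Type*} [Group G] [MulAction G X] (g : G) (τ : ℝ)
    (c : ℝ → X) : Prop := Isometry c ∧ ∀ t, g • c t = c (t + τ)

/-- `F` is (on `0 ≤ x ≤ a`, `0 ≤ y ≤ b`) a flat rectangle with sides `a` and `b`. -/
def IsRectangle {X : Type*} [MetricSpace X] (F : ℝ → ℝ → X) (a b : ℝ) : Prop :=
  ∀ x y x' y', 0 ≤ x → x ≤ a → 0 ≤ y → y ≤ b → 0 ≤ x' → x' ≤ a → 0 ≤ y' → y' ≤ b →
    dist (F x y) (F x' y') ^ 2 = (x - x') ^ 2 + (y - y') ^ 2

/-- Let `G` act geometrically (by isometries, properly discontinuously, cocompactly) on a proper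
CAT(0) space `X`.  There is `A > 0` such that `G` contains a subgroup isomorphic to `ℤ²`, or the
following holds for all `g ∈ G` and `τ > 0`: any two axes of `g` with translation length `τ` are at
distance at most `A exp (A τ)`; if `g` has such an axis then every element which commutes with `g`
is a power of `g` times one of at most `A exp (A τ)` elements; if `g` translates the first half of
a flat rectangle with sides `2 τ` and `W` onto the second half then `W ≤ A exp (A τ)`. -/
theorem result {X : Type*} [MetricSpace X] [ProperSpace X] (hX : BruhatTits X)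
    {G : Type*} [Group G] [MulAction G X] [IsIsometricSMul G X] [ProperlyDiscontinuousSMul G X]
    (hcc : ∃ K : Set X, IsCompact K ∧ ∀ x : X, ∃ g : G, g • x ∈ K) :
    ∃ A : ℝ, 0 < A ∧ ((∃ φ : Multiplicative (ℤ × ℤ) →* G, Function.Injective φ) ∨
      ∀ (g : G) (τ : ℝ), 0 < τ →
        (∀ c c' : ℝ → X, IsAxis g τ c → IsAxis g τ c' →
          ∀ t, infDist (c t) (range c') ≤ A * Real.exp (A * τ)) ∧
        ((∃ c : ℝ → X, IsAxis g τ c) → ∃ T : Finset G, (T.card : ℝ) ≤ A * Real.exp (A * τ) ∧
          ∀ h : G, Commute g h → ∃ m : ℤ, ∃ t ∈ T, h = g ^ m * t) ∧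
        ∀ (W : ℝ) (F : ℝ → ℝ → X), 0 ≤ W → IsRectangle F (2 * τ) W →
          (∀ x y, 0 ≤ x → x ≤ τ → 0 ≤ y → y ≤ W → g • F x y = F (x + τ) y) →
          W ≤ A * Real.exp (A * τ)) := by
  have hG : Pool.Agent.Y34.HB.Geo X G := ⟨inferInstance, inferInstance, inferInstance, hcc, hX⟩
  rcases isEmpty_or_nonempty X with hemp | ⟨⟨x0⟩⟩
  · refine ⟨1, one_pos, Or.inr fun g τ hτ => ⟨fun c => (hemp.false (c 0)).elim, ?_, ?_⟩⟩
    · rintro ⟨c, -⟩
      exact (hemp.false (c 0)).elim
    · intro W F
      exact (hemp.false (F 0 0)).elim
  obtain ⟨A, hA, h⟩ := Pool.Agent.Q117.WS.all_bounds hG x0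
  refine ⟨A, hA, h.imp id fun h g τ hτ => ?_⟩
  obtain ⟨h1, h2⟩ := h g τ hτ
  refine ⟨fun c c' hc hc' t => ?_, h2, fun W F hW hF hg => ?_⟩
  · -- shift the parametrisation
    have hsh : Pool.Agent.Y34.HB.Axis g τ (fun s => c (s + t)) := by
      refine ⟨Isometry.of_dist_eq fun s s' => ?_, fun s => ?_⟩
      · rw [hc.1.dist_eq, Real.dist_eq, Real.dist_eq]
        congr 1
        ring
      · simp only
        rw [hc.2]
        congr 1
        ring
    have h3 := h1 _ c' hsh hc'
    unfold Pool.Agent.TH60.FP.DD at h3
    simpa using h3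
  · obtain ⟨c, c', hc, hc', hd⟩ := Pool.Agent.Q117.WS.rect_dd hG hτ hW hF hg
    rw [← hd]
    exact h1 c c' hc hc'

end Pool.Agent.Results.MP_140312_al.WideStrips
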